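import Mathlib

/-!
Artin L-functions of finite dimensional complex representations of the Galois group of a finite
Galois extension of number fields.
-/

open NumberField IsDedekindDomain Module
open scoped Pointwise

namespace Pool.Agent.H7.Artin

set_option linter.unusedSectionVars false

section Defs

variable (K L : Type) [Field K] [NumberField K] [Field L] [NumberField L] [Algebra K L]
  [IsGalois K L]

/-- Every nonzero prime `v` of `𝓞 K` has a (nonzero) prime of `𝓞 L` above it. -/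
theorem exists_primeAbove (v : HeightOneSpectrum (𝓞 K)) :
    ∃ w : HeightOneSpectrum (𝓞 L), w.asIdeal.LiesOver v.asIdeal := by
  obtain ⟨⟨P, hP, hP'⟩⟩ := (v.asIdeal).nonempty_primesOver (S := 𝓞 L)
  refine ⟨⟨P, hP, ?_⟩, hP'⟩
  rintro rfl
  have h1 := hP'.over
  apply v.ne_bot
  rw [h1]
  exact Ideal.under_bot _ _

/-- A chosen prime of `𝓞 L` above the nonzero prime `v` of `𝓞 K`. -/
noncomputable def primeAbove (v : HeightOneSpectrum (𝓞 K)) : HeightOneSpectrum (𝓞 L) :=
  (exists_primeAbove K L v).choose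

theorem primeAbove_liesOver (v : HeightOneSpectrum (𝓞 K)) :
    (primeAbove K L v).asIdeal.LiesOver v.asIdeal := (exists_primeAbove K L v).choose_spec

instance (w : HeightOneSpectrum (𝓞 L)) : Finite (𝓞 L ⧸ w.asIdeal) :=
  Ideal.finiteQuotientOfFreeOfNeBot _ w.ne_bot

/-- The inertia subgroup of `Gal(L/K)` at the prime `w` of `𝓞 L`. -/
def inertiaGroup (w : HeightOneSpectrum (𝓞 L)) : Subgroup Gal(L/K) := w.asIdeal.inertia Gal(L/K)

/-- A Frobenius element at the prime `w` of `𝓞 L`: an element `σ` of `Gal(L/K)` with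
`σ x ≡ x ^ N(w ∩ 𝓞 K) mod w` for all `x ∈ 𝓞 L`. -/
noncomputable def frob (w : HeightOneSpectrum (𝓞 L)) : Gal(L/K) :=
  arithFrobAt (𝓞 K) Gal(L/K) w.asIdeal

theorem frob_conj_mem (w : HeightOneSpectrum (𝓞 L)) {τ : Gal(L/K)}
    (hτ : τ ∈ inertiaGroup K L w) : (frob K L w)⁻¹ * τ * frob K L w ∈ inertiaGroup K L w := by
  have hmem : frob K L w ∈ MulAction.stabilizer Gal(L/K) w.asIdeal :=
    IsArithFrobAt.arithFrobAt_mem_stabilizer (𝓞 K) Gal(L/K) w.asIdeal
  intro x
  have h1 : (frob K L w) • (((frob K L w)⁻¹ * τ * frob K L w) • x - x)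
      = τ • (frob K L w • x) - frob K L w • x := by
    rw [smul_sub, mul_smul, mul_smul, smul_inv_smul]
  have h2 : (frob K L w) • (((frob K L w)⁻¹ * τ * frob K L w) • x - x) ∈ w.asIdeal := by
    rw [h1]
    exact hτ _
  have h3 : (frob K L w) • (((frob K L w)⁻¹ * τ * frob K L w) • x - x)
      ∈ (frob K L w) • w.asIdeal := by
    rw [MulAction.mem_stabilizer_iff.1 hmem]
    exact h2
  exact Ideal.smul_mem_pointwise_smul_iff.1 h3

variable {V : Type} [AddCommGroup V] [Module ℂ V]

/-- The vectors fixed by the inertia group at `w`. -/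
def inertiaInvariants (ρ : Representation ℂ Gal(L/K) V) (w : HeightOneSpectrum (𝓞 L)) :
    Submodule ℂ V where
  carrier := {v | ∀ τ ∈ inertiaGroup K L w, ρ τ v = v}
  add_mem' := by
    intro a b ha hb τ hτ
    rw [map_add, ha τ hτ, hb τ hτ]
  zero_mem' := by
    intro τ _
    rw [map_zero]
  smul_mem' := by
    intro c v hv τ hτ
    rw [map_smul, hv τ hτ]

theorem frob_mapsTo (ρ : Representation ℂ Gal(L/K) V) (w : HeightOneSpectrum (𝓞 L)) :
    ∀ v ∈ inertiaInvariants K L ρ w, ρ (frob K L w) v ∈ inertiaInvariants K L ρ w := by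
  intro v hv τ hτ
  have h1 := hv _ (frob_conj_mem K L w hτ)
  have h2 : ρ (frob K L w) (ρ ((frob K L w)⁻¹ * τ * frob K L w) v) = ρ τ (ρ (frob K L w) v) := by
    rw [← Module.End.mul_apply, ← Module.End.mul_apply, ← map_mul, ← map_mul]
    congr 2
    group
  rw [← h2, h1]

/-- The Frobenius at `w` acting on the inertia invariants. -/
noncomputable def frobOn (ρ : Representation ℂ Gal(L/K) V) (w : HeightOneSpectrum (𝓞 L)) :
    Module.End ℂ (inertiaInvariants K L ρ w) :=
  (ρ (frob K L w)).restrict (frob_mapsTo K L ρ w)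

/-- The Euler factor `det (1 - N(v)^{-s} Frob_w | V^{I_w})⁻¹` at the nonzero prime `v` of `𝓞 K`,
`w` being a prime of `𝓞 L` above `v`. -/
noncomputable def localFactor (ρ : Representation ℂ Gal(L/K) V) (v : HeightOneSpectrum (𝓞 K))
    (s : ℂ) : ℂ :=
  (LinearMap.det (1 - ((Ideal.absNorm v.asIdeal : ℂ) ^ (-s))
    • frobOn K L ρ (primeAbove K L v)))⁻¹

/-- The Artin L-function of `ρ`, as the Euler product over all nonzero primes of `𝓞 K`
(absolutely convergent for `Re s > 1`). -/
noncomputable def artinL (ρ : Representation ℂ Gal(L/K) V) (s : ℂ) : ℂ :=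
  ∏' v : HeightOneSpectrum (𝓞 K), localFactor K L ρ v s

/-- `F` is a meromorphic continuation of the Artin L-function of `ρ` to `ℂ`. -/
def IsContinuation (ρ : Representation ℂ Gal(L/K) V) (F : ℂ → ℂ) : Prop :=
  MeromorphicOn F Set.univ ∧ ∀ s : ℂ, 1 < s.re → F s = artinL K L ρ s

end Defs

end Pool.Agent.H7.Artin
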