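import Mathlib

/-!
Summability of `N(v)^{-σ}` over the primes of a number field.
-/

open NumberField IsDedekindDomain Filter Topology Asymptotics
open scoped nonZeroDivisors

namespace Pool.Agent.H7.Artin

set_option linter.unusedSectionVars false

variable (K : Type) [Field K] [NumberField K]

theorem summable_ideal {σ : ℝ} (hσ : 1 < σ) :
    Summable fun I : Ideal (𝓞 K) => ((Ideal.absNorm I : ℝ)) ^ (-σ) := by
  classical
  let a : ℕ → ℝ := fun n => Nat.card {I : Ideal (𝓞 K) // Ideal.absNorm I = n}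
  have htend : Tendsto (fun n : ℕ => (∑ k ∈ Finset.Icc 1 n, a k) / n) atTop
      (𝓝 (NumberField.dedekindZeta_residue K)) := by
    refine ((NumberField.Ideal.tendsto_norm_le_div_atTop₀ K).comp
      tendsto_natCast_atTop_atTop).congr fun n ↦ ?_
    simp only [Function.comp_apply, Nat.cast_le, a, ← Nat.cast_sum]
    congr
    rw [← add_left_inj 1, ← Ideal.card_norm_le_eq_card_norm_le_add_one,
      show Finset.Icc 1 n = Finset.Ioc 0 n from Finset.Icc_succ_left_eq_Ioc _ _,
      show 1 = Nat.card {I : Ideal (𝓞 K) // Ideal.absNorm I = 0} by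
        simp [Ideal.absNorm_eq_zero_iff],
      Finset.sum_Ioc_add_eq_sum_Icc (n.zero_le),
      ← Finset.card_preimage_eq_sum_card_image_eq
        (fun k _ ↦ Ideal.finite_setOfPred_absNorm_eq k)]
    simp [Set.coe_eq_subtype]
  have hO : (fun n : ℕ => ∑ k ∈ Finset.Icc 1 n, a k) =O[atTop] fun n => (n : ℝ) ^ (1 : ℝ) := by
    have h1 := htend.isBigO_one ℝ
    have h2 : (fun n : ℕ => (∑ k ∈ Finset.Icc 1 n, a k) / n * (n : ℝ))
        =O[atTop] fun n : ℕ => (1 : ℝ) * (n : ℝ) := h1.mul (isBigO_refl _ _)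
    refine (h2.congr' ?_ ?_)
    · filter_upwards [eventually_ne_atTop 0] with n hn
      have : (n : ℝ) ≠ 0 := by exact_mod_cast hn
      field_simp
    · filter_upwards with n
      rw [one_mul, Real.rpow_one]
  have hL : LSeriesSummable (fun n => (a n : ℂ)) (σ : ℂ) :=
    LSeriesSummable_of_sum_norm_bigO_and_nonneg hO (fun n => Nat.cast_nonneg _) zero_le_one
      (by simpa using hσ)
  -- pass to the sum over ideals
  rw [← (Equiv.sigmaFiberEquiv (fun I : Ideal (𝓞 K) => Ideal.absNorm I)).summable_iff]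
  have hnn : ∀ x, 0 ≤ ((fun I : Ideal (𝓞 K) => ((Ideal.absNorm I : ℝ)) ^ (-σ)) ∘
      (Equiv.sigmaFiberEquiv (fun I : Ideal (𝓞 K) => Ideal.absNorm I))) x :=
    fun x => Real.rpow_nonneg (Nat.cast_nonneg _) _
  rw [summable_sigma_of_nonneg hnn]
  have hfin : ∀ n : ℕ, Finite {I : Ideal (𝓞 K) // Ideal.absNorm I = n} :=
    fun n => Ideal.finite_setOfPred_absNorm_eq n
  refine ⟨fun n => ?_, ?_⟩
  · have := hfin n
    exact Summable.of_finite
  · have h1 : ∀ n : ℕ, (∑' y : {I : Ideal (𝓞 K) // Ideal.absNorm I = n},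
        ((fun I : Ideal (𝓞 K) => ((Ideal.absNorm I : ℝ)) ^ (-σ)) ∘
          (Equiv.sigmaFiberEquiv (fun I : Ideal (𝓞 K) => Ideal.absNorm I))) ⟨n, y⟩)
        = a n * (n : ℝ) ^ (-σ) := by
      intro n
      have := hfin n
      have : Fintype {I : Ideal (𝓞 K) // Ideal.absNorm I = n} := Fintype.ofFinite _
      rw [tsum_fintype]
      have h2 : ∀ y : {I : Ideal (𝓞 K) // Ideal.absNorm I = n},
          ((fun I : Ideal (𝓞 K) => ((Ideal.absNorm I : ℝ)) ^ (-σ)) ∘
            (Equiv.sigmaFiberEquiv (fun I : Ideal (𝓞 K) => Ideal.absNorm I))) ⟨n, y⟩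
          = (n : ℝ) ^ (-σ) := by
        intro y
        simp only [Function.comp_apply, Equiv.sigmaFiberEquiv_apply]
        rw [y.2]
      rw [Finset.sum_congr rfl (fun y _ => h2 y), Finset.sum_const, Finset.card_univ,
        nsmul_eq_mul, ← Nat.card_eq_fintype_card]
    simp_rw [h1]
    refine Summable.of_norm_bounded_eventually_nat (g := fun n => ‖LSeries.term
      (fun n => (a n : ℂ)) (σ : ℂ) n‖) hL.norm ?_
    filter_upwards [eventually_ne_atTop 0] with n hn
    rw [LSeries.term_of_ne_zero hn, norm_div, Complex.norm_natCast_cpow_of_pos (by omega),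
      Complex.ofReal_re, norm_mul, Real.norm_of_nonneg (by positivity : (0:ℝ) ≤ (n : ℝ) ^ (-σ)),
      Real.rpow_neg (by positivity), div_eq_mul_inv]
    simp

theorem summable_prime {σ : ℝ} (hσ : 1 < σ) :
    Summable fun v : HeightOneSpectrum (𝓞 K) => ((Ideal.absNorm v.asIdeal : ℝ)) ^ (-σ) :=
  (summable_ideal K hσ).comp_injective (i := fun v : HeightOneSpectrum (𝓞 K) => v.asIdeal)
    (fun _ _ h => HeightOneSpectrum.ext h)

theorem two_le_absNorm (v : HeightOneSpectrum (𝓞 K)) : 2 ≤ Ideal.absNorm v.asIdeal := by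
  have h1 : Ideal.absNorm v.asIdeal ≠ 0 := by
    rw [Ne, Ideal.absNorm_eq_zero_iff]
    exact v.ne_bot
  have h2 : Ideal.absNorm v.asIdeal ≠ 1 := by
    rw [Ne, Ideal.absNorm_eq_one_iff]
    exact v.isPrime.ne_top
  omega

theorem norm_absNorm_cpow (v : HeightOneSpectrum (𝓞 K)) (s : ℂ) :
    ‖(Ideal.absNorm v.asIdeal : ℂ) ^ (-s)‖ = (Ideal.absNorm v.asIdeal : ℝ) ^ (-s.re) := by
  rw [Complex.norm_natCast_cpow_of_pos (by have := two_le_absNorm K v; omega)]
  simp

end Pool.Agent.H7.Artin
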