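import Pool.Agent.H7.Artin.Ind
import Pool.Agent.H7.Heil.Main

/-!
Additive functions on representations of symmetric groups, nonnegative on monomial ones.
-/

open Module

namespace Pool.Agent.H7.Artin

set_option linter.unusedSectionVars false

open Pool.Agent.H7.HB

variable {G : Type} [Group G] [Fintype G]

/-- the class function of an additive function which is nonnegative on monomial representations is a
Heilbronn class function -/
theorem heil_of_addFn (A : AddFn G)
    (hmon : ∀ (H : Subgroup G) (ψ : H →* ℂˣ), 0 ≤ A.ord (indSpace H ψ) (indRep H ψ)) :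
    ∃ θ : G → ℂ, Heil θ ∧
    ∀ (V : Type) [AddCommGroup V] [Module ℂ V] [FiniteDimensional ℂ V]
      (ρ : Representation ℂ G V), (A.ord V ρ : ℂ) = ip θ ρ.character := by
  classical
  obtain ⟨θ, hconj, hθ⟩ := exists_theta A
  refine ⟨θ, heil_of_subgroup hconj (fun H _ ψ => ?_), hθ⟩
  have h1 := hθ _ (indRep H ψ)
  have h2 : (indRep H ψ).character = indChar H ψ := funext (indRep_character H ψ)
  rw [h2, ip_indChar θ hconj] at h1
  obtain ⟨m, hm⟩ := Int.eq_ofNat_of_zero_le (hmon H ψ)
  refine ⟨m, ?_⟩
  rw [hm] at h1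
  have hH : (Nat.card H : ℂ) ≠ 0 := by exact_mod_cast Nat.card_pos.ne'
  rw [← Nat.card_eq_fintype_card]
  have h3 : ∑ h : H, θ h * (((ψ h)⁻¹ : ℂˣ) : ℂ)
      = (Nat.card H : ℂ) * ((Nat.card H : ℂ)⁻¹ * ∑ h : H, θ h * (((ψ h)⁻¹ : ℂˣ) : ℂ)) := by
    rw [← mul_assoc, mul_inv_cancel₀ hH, one_mul]
  rw [h3, mul_comm]
  congr 1
  rw [Int.cast_natCast] at h1
  rw [h1]
  congr 1
  refine Finset.sum_congr ?_ fun _ _ => rfl
  ext x
  simp

/-- one-dimensional representation -/
def linRep (ψ : G →* ℂˣ) : Representation ℂ G ℂ where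
  toFun g := ((ψ g : ℂˣ) : ℂ) • LinearMap.id
  map_one' := by
    ext
    simp
  map_mul' := by
    intro a b
    ext
    simp [mul_comm]

theorem linRep_character (ψ : G →* ℂˣ) (g : G) : (linRep ψ).character g = ((ψ g : ℂˣ) : ℂ) := by
  unfold Representation.character linRep
  simp [LinearMap.trace_id]

theorem ip_lin (ψ : G →* ℂˣ) {V : Type} [AddCommGroup V] [Module ℂ V] [FiniteDimensional ℂ V]
    (ρ : Representation ℂ G V) :
    ip (fun g => ((ψ g : ℂˣ) : ℂ)) ρ.character
      = (finrank ℂ (Representation.IntertwiningMap ρ (linRep ψ)) : ℂ) := by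
  rw [← Representation.card_inv_mul_sum_char_mul_char_eq_finrank]
  unfold ip
  simp_rw [linRep_character]

theorem finrank_intertwining_zero (ψ : G →* ℂˣ) {V : Type} [AddCommGroup V] [Module ℂ V]
    [FiniteDimensional ℂ V] (ρ : Representation ℂ G V) [ρ.IsIrreducible]
    (hV : finrank ℂ V ≠ 1) :
    finrank ℂ (Representation.IntertwiningMap ρ (linRep ψ)) = 0 := by
  have : Subsingleton (Representation.IntertwiningMap ρ (linRep ψ)) := by
    refine ⟨fun f g => ?_⟩
    have key : ∀ f : Representation.IntertwiningMap ρ (linRep ψ), f = 0 := by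
      intro f
      rcases Representation.IsIrreducible.injective_or_eq_zero f with h | h
      · exfalso
        have h1 : finrank ℂ V ≤ 1 := by
          have := LinearMap.finrank_le_finrank_of_injective (f := f.toLinearMap) h
          simpa using this
        have h2 : finrank ℂ V ≠ 0 := by
          intro h0
          have hsub : Subsingleton V := finrank_zero_iff.1 h0
          have hb : (⊥ : Subrepresentation ρ) ≠ ⊤ := bot_ne_top
          apply hb
          apply Subrepresentation.toSubmodule_injective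
          exact Subsingleton.elim _ _
        omega
      · exact h
    rw [key f, key g]
  exact finrank_zero_of_subsingleton

/-- Symmetric groups. -/
theorem addFn_symmetric {n : ℕ} (hn : 10 ≤ n) (e : G ≃* Equiv.Perm (Fin n)) (A : AddFn G)
    (hmon : ∀ (H : Subgroup G) (ψ : H →* ℂˣ), 0 ≤ A.ord (indSpace H ψ) (indRep H ψ))
    (hreg : A.ord (G → ℂ) (ltr G) + 3 ≤ n) {V : Type} [AddCommGroup V] [Module ℂ V]
    [FiniteDimensional ℂ V] (ρ : Representation ℂ G V) [ρ.IsIrreducible] :
    0 ≤ A.ord V ρ ∧ (finrank ℂ V ≠ 1 → A.ord V ρ = 0) := by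
  classical
  obtain ⟨θ, hθ, hord⟩ := heil_of_addFn A hmon
  obtain ⟨r, hr⟩ := hθ.exists_deg
  -- degree
  have hregord : (A.ord (G → ℂ) (ltr G) : ℂ) = r := by
    rw [hord]
    have hchar : ∀ g : G, (ltr G).character g = if g = 1 then (Nat.card G : ℂ) else 0 := by
      intro g
      unfold Representation.character
      rw [LinearMap.trace_eq_matrix_trace ℂ (Pi.basisFun ℂ G), Matrix.trace]
      have h1 : ∀ x : G, (LinearMap.toMatrix (Pi.basisFun ℂ G) (Pi.basisFun ℂ G) (ltr G g)).diag x
          = if g = 1 then 1 else 0 := by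
        intro x
        rw [Matrix.diag_apply, LinearMap.toMatrix_apply]
        simp only [Pi.basisFun_apply, Pi.basisFun_repr, ltr_apply]
        by_cases hg : g = 1
        · subst hg
          simp
        · rw [if_neg hg, Pi.single_eq_of_ne]
          intro h
          apply hg
          have : g⁻¹ = 1 := by
            have h2 := congrArg (· * x⁻¹) h
            simpa using h2
          exact inv_eq_one.1 this
      simp_rw [h1]
      by_cases hg : g = 1
      · simp [hg]
      · simp [hg]
    unfold ip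
    simp_rw [hchar]
    have h2 : ∀ g : G, θ g * (if g⁻¹ = 1 then (Nat.card G : ℂ) else 0)
        = if g = 1 then θ 1 * (Nat.card G : ℂ) else 0 := by
      intro g
      by_cases hg : g = 1
      · subst hg; simp
      · simp [hg]
    simp_rw [h2]
    rw [Finset.sum_ite_eq' Finset.univ (1 : G)]
    simp only [Finset.mem_univ, if_true]
    have hG : (Nat.card G : ℂ) ≠ 0 := by exact_mod_cast Nat.card_pos.ne'
    rw [hr]
    field_simp
  have hrn : r + 3 ≤ n := by
    have h1 : (A.ord (G → ℂ) (ltr G) : ℤ) = r := by exact_mod_cast hregord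
    rw [h1] at hreg
    exact_mod_cast hreg
  -- transport to Perm (Fin n)
  have hθ' := hθ.comp e.symm.toMonoidHom
  obtain ⟨a, b, hab⟩ := HB.main (r := r) hθ' (by
    change θ (e.symm 1) = r
    rw [map_one, hr]) (by rw [Fintype.card_fin]; exact hn) (by rw [Fintype.card_fin]; exact hrn)
  have hform : ∀ g : G, θ g = (a : ℂ) * (((1 : G →* ℂˣ) g : ℂˣ) : ℂ)
      + b * (((sgnC.comp e.toMonoidHom) g : ℂˣ) : ℂ) := by
    intro g
    have := hab (e g)
    change θ (e.symm (e g)) = _ at this
    rw [MulEquiv.symm_apply_apply] at this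
    rw [this]
    simp
  have hip : ip θ ρ.character = (a : ℂ) * ip (fun g => (((1 : G →* ℂˣ) g : ℂˣ) : ℂ)) ρ.character
      + b * ip (fun g => (((sgnC.comp e.toMonoidHom) g : ℂˣ) : ℂ)) ρ.character := by
    unfold ip
    simp_rw [hform]
    simp only [add_mul, Finset.sum_add_distrib, mul_add, Finset.mul_sum]
    congr 1 <;>
    · refine Finset.sum_congr rfl fun g _ => ?_
      ring
  have hval := hord V ρ
  rw [hip, ip_lin, ip_lin] at hval
  have hvalZ : A.ord V ρ = (a : ℤ) * finrank ℂ (Representation.IntertwiningMap ρ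
      (linRep (1 : G →* ℂˣ))) + b * finrank ℂ (Representation.IntertwiningMap ρ
      (linRep (sgnC.comp e.toMonoidHom))) := by exact_mod_cast hval
  refine ⟨?_, fun hV => ?_⟩
  · rw [hvalZ]
    positivity
  · rw [hvalZ, finrank_intertwining_zero _ ρ hV, finrank_intertwining_zero _ ρ hV]
    simp

end Pool.Agent.H7.Artin
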