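import Pool.Agent.H7.Artin.Rep

/-!
Representations induced from linear characters.
-/

open Module

namespace Pool.Agent.H7.Artin

set_option linter.unusedSectionVars false

variable {G : Type} [Group G] [Fintype G]

theorem ltr_apply (g : G) (f : G → ℂ) (x : G) : ltr G g f x = f (g⁻¹ * x) := rfl

/-- the space of the induced representation -/
def indSpace (H : Subgroup G) (ψ : H →* ℂˣ) : Submodule ℂ (G → ℂ) where
  carrier := {f | ∀ (h : H) (x : G), f (x * h) = (((ψ h)⁻¹ : ℂˣ) : ℂ) * f x}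
  add_mem' := by
    intro a b ha hb h x
    rw [Pi.add_apply, Pi.add_apply, ha, hb, mul_add]
  zero_mem' := by
    intro h x
    simp
  smul_mem' := by
    intro c f hf h x
    rw [Pi.smul_apply, Pi.smul_apply, hf, smul_eq_mul, smul_eq_mul]
    ring

theorem ltr_mem (H : Subgroup G) (ψ : H →* ℂˣ) (g : G) :
    ∀ f ∈ indSpace H ψ, ltr G g f ∈ indSpace H ψ := by
  intro f hf h x
  rw [ltr_apply, ltr_apply, ← mul_assoc, hf]

/-- the induced representation -/
def indRep (H : Subgroup G) (ψ : H →* ℂˣ) : Representation ℂ G (indSpace H ψ) where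
  toFun g := (ltr G g).restrict (ltr_mem H ψ g)
  map_one' := by
    ext f x
    simp
  map_mul' := by
    intro a b
    ext f x
    simp

open Classical in
/-- the projector onto the induced space -/
noncomputable def indProj (H : Subgroup G) (ψ : H →* ℂˣ) : (G → ℂ) →ₗ[ℂ] (G → ℂ) where
  toFun f x := (Nat.card H : ℂ)⁻¹ * ∑ h : H, ((ψ h : ℂˣ) : ℂ) * f (x * h)
  map_add' := by
    intro f f'
    ext x
    simp only [Pi.add_apply, mul_add, Finset.sum_add_distrib]
  map_smul' := by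
    intro c f
    ext x
    simp only [Pi.smul_apply, smul_eq_mul, RingHom.id_apply, Finset.mul_sum]
    refine Finset.sum_congr rfl fun h _ => ?_
    ring

open Classical in
theorem indProj_apply (H : Subgroup G) (ψ : H →* ℂˣ) (f : G → ℂ) (x : G) :
    indProj H ψ f x = (Nat.card H : ℂ)⁻¹ * ∑ h : H, ((ψ h : ℂˣ) : ℂ) * f (x * h) := rfl

theorem indProj_mem (H : Subgroup G) (ψ : H →* ℂˣ) (f : G → ℂ) :
    indProj H ψ f ∈ indSpace H ψ := by
  classical
  intro h x
  rw [indProj_apply, indProj_apply, mul_left_comm]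
  congr 1
  rw [← Equiv.sum_comp (Equiv.mulLeft h) (fun h' : H => ((ψ h' : ℂˣ) : ℂ) * f (x * h')),
    Finset.mul_sum]
  refine Finset.sum_congr rfl fun h' _ => ?_
  rw [Equiv.coe_mulLeft, Subgroup.coe_mul, ← mul_assoc x, map_mul, Units.val_mul,
    ← mul_assoc (((ψ h)⁻¹ : ℂˣ) : ℂ), ← mul_assoc (((ψ h)⁻¹ : ℂˣ) : ℂ), ← Units.val_mul,
    inv_mul_cancel, Units.val_one, one_mul]

theorem indProj_of_mem (H : Subgroup G) (ψ : H →* ℂˣ) {f : G → ℂ} (hf : f ∈ indSpace H ψ) :
    indProj H ψ f = f := by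
  classical
  ext x
  rw [indProj_apply]
  have h1 : ∀ h : H, ((ψ h : ℂˣ) : ℂ) * f (x * h) = f x := by
    intro h
    rw [hf h x, ← mul_assoc, ← Units.val_mul, mul_inv_cancel, Units.val_one, one_mul]
  simp_rw [h1]
  rw [Finset.sum_const, Finset.card_univ, nsmul_eq_mul, ← Nat.card_eq_fintype_card,
    ← mul_assoc, inv_mul_cancel₀, one_mul]
  exact_mod_cast Nat.card_pos.ne'

/-- The character of the induced representation. -/
theorem indRep_character (H : Subgroup G) (ψ : H →* ℂˣ) (g : G) :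
    (indRep H ψ).character g = indChar H ψ g := by
  classical
  have hmem : ∀ f, (ltr G g ∘ₗ indProj H ψ) f ∈ indSpace H ψ := fun f =>
    ltr_mem H ψ g _ (indProj_mem H ψ f)
  have h1 : indRep H ψ g = (ltr G g ∘ₗ indProj H ψ).restrict (fun f _ => hmem f) := by
    ext f x
    change ltr G g f x = ltr G g (indProj H ψ f) x
    rw [indProj_of_mem H ψ f.2]
  unfold Representation.character
  rw [h1, LinearMap.trace_restrict_eq_of_forall_mem (indSpace H ψ) _ hmem,
    LinearMap.trace_eq_matrix_trace ℂ (Pi.basisFun ℂ G), Matrix.trace]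
  unfold indChar
  rw [Finset.mul_sum]
  refine Finset.sum_congr rfl fun x _ => ?_
  rw [Matrix.diag_apply, LinearMap.toMatrix_apply]
  simp only [Pi.basisFun_apply, Pi.basisFun_repr, LinearMap.comp_apply, ltr_apply,
    indProj_apply]
  congr 1
  by_cases hx : x⁻¹ * g * x ∈ H
  · rw [dif_pos hx, Finset.sum_eq_single ⟨x⁻¹ * g * x, hx⟩]
    · have : g⁻¹ * x * (x⁻¹ * g * x) = x := by group
      simp only [this, Pi.single_eq_same, mul_one]
    · intro h _ hne
      have : g⁻¹ * x * (h : G) ≠ x := by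
        intro h'
        apply hne
        apply Subtype.ext
        change (h : G) = x⁻¹ * g * x
        rw [mul_assoc, inv_mul_eq_iff_eq_mul] at h'
        rw [mul_assoc, ← h']
        group
      rw [Pi.single_eq_of_ne this, mul_zero]
    · intro h
      exact absurd (Finset.mem_univ _) h
  · rw [dif_neg hx]
    refine Finset.sum_eq_zero fun h _ => ?_
    have : g⁻¹ * x * (h : G) ≠ x := by
      intro h'
      apply hx
      have h2 : x⁻¹ * g * x = h := by
        rw [mul_assoc, inv_mul_eq_iff_eq_mul] at h'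
        rw [mul_assoc, ← h']
        group
      rw [h2]
      exact h.2
    rw [Pi.single_eq_of_ne this, mul_zero]

open Classical in
/-- Frobenius reciprocity for characters. -/
theorem ip_indChar (θ : G → ℂ) (hθ : ∀ g x, θ (g * x * g⁻¹) = θ x) (H : Subgroup G)
    (ψ : H →* ℂˣ) :
    ip θ (indChar H ψ) = (Nat.card H : ℂ)⁻¹ * ∑ h : H, θ h * (((ψ h)⁻¹ : ℂˣ) : ℂ) := by
  classical
  have hG : (Nat.card G : ℂ) ≠ 0 := by exact_mod_cast Nat.card_pos.ne'
  unfold ip
  have h1 : ∑ g : G, θ g * indChar H ψ g⁻¹ = (Nat.card H : ℂ)⁻¹ * ∑ x : G, ∑ g : G,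
      θ g * (if h : x⁻¹ * g⁻¹ * x ∈ H then ((ψ ⟨x⁻¹ * g⁻¹ * x, h⟩ : ℂˣ) : ℂ) else 0) := by
    rw [Finset.sum_comm, Finset.mul_sum]
    refine Finset.sum_congr rfl fun g _ => ?_
    unfold indChar
    rw [← Finset.mul_sum]
    ring
  have h2 : ∀ x : G, ∑ g : G,
      θ g * (if h : x⁻¹ * g⁻¹ * x ∈ H then ((ψ ⟨x⁻¹ * g⁻¹ * x, h⟩ : ℂˣ) : ℂ) else 0)
      = ∑ h : H, θ h * (((ψ h)⁻¹ : ℂˣ) : ℂ) := by
    intro x
    rw [← Equiv.sum_comp (MulAut.conj x).toEquiv]
    have h3 : ∀ k : G, x⁻¹ * (x * k * x⁻¹)⁻¹ * x = k⁻¹ := fun k => by group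
    have h4 : ∀ k : G, θ ((MulAut.conj x).toEquiv k) * (if h : x⁻¹ * ((MulAut.conj x).toEquiv k)⁻¹
        * x ∈ H then ((ψ ⟨x⁻¹ * ((MulAut.conj x).toEquiv k)⁻¹ * x, h⟩ : ℂˣ) : ℂ) else 0)
        = if h : k ∈ H then θ k * (((ψ ⟨k, h⟩)⁻¹ : ℂˣ) : ℂ) else 0 := by
      intro k
      change θ (x * k * x⁻¹) * (if h : x⁻¹ * (x * k * x⁻¹)⁻¹ * x ∈ H then
        ((ψ ⟨x⁻¹ * (x * k * x⁻¹)⁻¹ * x, h⟩ : ℂˣ) : ℂ) else 0) = _
      rw [hθ]
      by_cases hk : k ∈ H
      · have hk' : x⁻¹ * (x * k * x⁻¹)⁻¹ * x ∈ H := by rw [h3]; exact H.inv_mem hk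
        rw [dif_pos hk', dif_pos hk, ← map_inv]
        have h5 : (⟨x⁻¹ * (x * k * x⁻¹)⁻¹ * x, hk'⟩ : H) = (⟨k, hk⟩ : H)⁻¹ :=
          Subtype.ext (h3 k)
        rw [h5]
      · have hk' : x⁻¹ * (x * k * x⁻¹)⁻¹ * x ∉ H := by
          rw [h3]
          intro h'
          exact hk (by simpa using H.inv_mem h')
        rw [dif_neg hk', dif_neg hk, mul_zero]
    simp_rw [h4]
    refine (Fintype.sum_of_injective (fun h : H => (h : G)) Subtype.val_injective _ _ ?_ ?_).symm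
    · intro k hk
      refine dif_neg fun h => hk ⟨⟨k, h⟩, rfl⟩
    · intro h
      rw [dif_pos h.2]
  rw [h1]
  simp_rw [h2]
  rw [Finset.sum_const, Finset.card_univ, nsmul_eq_mul, ← Nat.card_eq_fintype_card]
  field_simp

end Pool.Agent.H7.Artin
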