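import Mathlib

/-!
Class functions on finite groups: the inner product, induced characters, the left translation
representation, and Heilbronn class functions.
-/

open Module

namespace Pool.Agent.H7.Artin

variable {G : Type} [Group G]

/-- The inner product `|G|⁻¹ * ∑ g, f g * f' g⁻¹` of class functions. -/
noncomputable def ip [Fintype G] (f f' : G → ℂ) : ℂ := (Nat.card G : ℂ)⁻¹ * ∑ g : G, f g * f' g⁻¹

open Classical in
/-- The character of `G` induced from the linear character `ψ` of the subgroup `H`. -/
noncomputable def indChar [Fintype G] (H : Subgroup G) (ψ : H →* ℂˣ) (g : G) : ℂ :=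
  (Nat.card H : ℂ)⁻¹ * ∑ x : G,
    if h : x⁻¹ * g * x ∈ H then ((ψ ⟨x⁻¹ * g * x, h⟩ : ℂˣ) : ℂ) else 0

/-- A **Heilbronn class function** on the finite group `G`: a complex valued class function `θ`
whose inner product with every character of `G` induced from a linear character of a subgroup is
a nonnegative integer. -/
def IsHeilbronn [Fintype G] (θ : G → ℂ) : Prop :=
  (∀ g x : G, θ (g * x * g⁻¹) = θ x) ∧
    ∀ (H : Subgroup G) (ψ : H →* ℂˣ), ∃ m : ℕ, ip θ (indChar H ψ) = m

/-- The representation of `G` on the functions `G → ℂ` by left translation, a copy of the regular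
representation of `G`. -/
def ltr (G : Type) [Group G] : Representation ℂ G (G → ℂ) where
  toFun g :=
    { toFun := fun f x => f (g⁻¹ * x)
      map_add' := fun _ _ => rfl
      map_smul' := fun _ _ => rfl }
  map_one' := by
    ext f x
    simp
  map_mul' := by
    intro a b
    ext f x
    simp [mul_assoc]

end Pool.Agent.H7.Artin
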