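import Pool.Agent.H7.Artin.Base

/-!
Additive functions on the representations of a finite group are given by pairing with a class
function.
-/

open Module

namespace Pool.Agent.H7.Artin

set_option linter.unusedSectionVars false

section

variable (G : Type) [Group G]

/-- An integer valued function on finite dimensional complex representations which only depends on
the isomorphism class and is additive in direct sums. -/
structure AddFn where
  /-- the value -/
  ord : ∀ (V : Type) [AddCommGroup V] [Module ℂ V] [FiniteDimensional ℂ V],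
    Representation ℂ G V → ℤ
  congr : ∀ (V V₁ : Type) [AddCommGroup V] [Module ℂ V] [FiniteDimensional ℂ V]
    [AddCommGroup V₁] [Module ℂ V₁] [FiniteDimensional ℂ V₁]
    (ρ : Representation ℂ G V) (ρ₁ : Representation ℂ G V₁) (e : V ≃ₗ[ℂ] V₁)
    (_ : ∀ g v, e (ρ g v) = ρ₁ g (e v)), ord V ρ = ord V₁ ρ₁
  prod : ∀ (V V₁ V₂ : Type) [AddCommGroup V] [Module ℂ V] [FiniteDimensional ℂ V]
    [AddCommGroup V₁] [Module ℂ V₁] [FiniteDimensional ℂ V₁]
    [AddCommGroup V₂] [Module ℂ V₂] [FiniteDimensional ℂ V₂]
    (ρ : Representation ℂ G V) (ρ₁ : Representation ℂ G V₁) (ρ₂ : Representation ℂ G V₂)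
    (e : V ≃ₗ[ℂ] V₁ × V₂)
    (_ : ∀ g v, e (ρ g v) = (ρ₁ g (e v).1, ρ₂ g (e v).2)), ord V ρ = ord V₁ ρ₁ + ord V₂ ρ₂
  zero : ∀ (V : Type) [AddCommGroup V] [Module ℂ V] [FiniteDimensional ℂ V] [Subsingleton V]
    (ρ : Representation ℂ G V), ord V ρ = 0

end

variable {G : Type} [Group G] [Fintype G]

/-- irreducible characters -/
def irrChars (G : Type) [Group G] : Set (G → ℂ) :=
  {χ | ∃ (V : Type) (_ : AddCommGroup V) (_ : Module ℂ V) (_ : FiniteDimensional ℂ V)
    (ρ : Representation ℂ G V), ρ.IsIrreducible ∧ ρ.character = χ}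

noncomputable instance : Invertible (Nat.card G : ℂ) :=
  invertibleOfNonzero (by exact_mod_cast Nat.card_pos.ne')

section

variable {V V₁ : Type} [AddCommGroup V] [Module ℂ V] [FiniteDimensional ℂ V]
    [AddCommGroup V₁] [Module ℂ V₁] [FiniteDimensional ℂ V₁]

theorem exists_equiv_of_char (ρ : Representation ℂ G V) (ρ₁ : Representation ℂ G V₁)
    [ρ.IsIrreducible] [ρ₁.IsIrreducible] (h : ρ.character = ρ₁.character) :
    ∃ e : V ≃ₗ[ℂ] V₁, ∀ g v, e (ρ g v) = ρ₁ g (e v) := by
  classical
  have h1 := Representation.char_orthonormal ρ ρ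
  rw [if_pos ⟨Representation.Equiv.refl ρ⟩] at h1
  have h2 := Representation.char_orthonormal ρ₁ ρ
  rw [← h] at h2
  rw [h1] at h2
  by_cases h3 : Nonempty (Representation.Equiv ρ ρ₁)
  · obtain ⟨φ⟩ := h3
    refine ⟨φ.toLinearEquiv, fun g v => ?_⟩
    exact DFunLike.congr_fun (φ.toIntertwiningMap.isIntertwining' g) v
  · rw [if_neg h3] at h2
    exact absurd h2 one_ne_zero

theorem ip_self (ρ : Representation ℂ G V) [ρ.IsIrreducible] :
    ip ρ.character ρ.character = 1 := by
  classical
  have h1 := Representation.char_orthonormal ρ ρ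
  rw [if_pos ⟨Representation.Equiv.refl ρ⟩] at h1
  exact h1

theorem ip_ne (ρ : Representation ℂ G V) (ρ₁ : Representation ℂ G V₁)
    [ρ.IsIrreducible] [ρ₁.IsIrreducible] (h : ρ.character ≠ ρ₁.character) :
    ip ρ.character ρ₁.character = 0 := by
  classical
  have h1 := Representation.char_orthonormal ρ ρ₁
  rw [if_neg (fun ⟨φ⟩ => h (Representation.char_iso φ).symm)] at h1
  exact h1

end

theorem ip_irr {χ ψ : G → ℂ} (hχ : χ ∈ irrChars G) (hψ : ψ ∈ irrChars G) :
    (χ = ψ → ip χ ψ = 1) ∧ (χ ≠ ψ → ip χ ψ = 0) := by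
  obtain ⟨V, _, _, _, ρ, hρ, rfl⟩ := hχ
  obtain ⟨V₁, _, _, _, ρ₁, hρ₁, rfl⟩ := hψ
  exact ⟨fun h => by rw [← h]; exact ip_self ρ, fun h => ip_ne ρ ρ₁ h⟩

theorem ip_sum {ι : Type*} (s : Finset ι) (c : ι → ℂ) (f : ι → G → ℂ) (f' : G → ℂ) :
    ip (fun g => ∑ i ∈ s, c i * f i g) f' = ∑ i ∈ s, c i * ip (f i) f' := by
  unfold ip
  simp_rw [Finset.sum_mul]
  rw [Finset.sum_comm, Finset.mul_sum]
  refine Finset.sum_congr rfl fun i _ => ?_
  rw [Finset.mul_sum, Finset.mul_sum, Finset.mul_sum]
  refine Finset.sum_congr rfl fun g _ => ?_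
  ring

theorem ip_add_right (f f₁ f₂ : G → ℂ) : ip f (fun g => f₁ g + f₂ g) = ip f f₁ + ip f f₂ := by
  unfold ip
  rw [← mul_add, ← Finset.sum_add_distrib]
  simp_rw [mul_add]

theorem irrChars_finite : (irrChars G).Finite := by
  classical
  have hli : LinearIndependent ℂ (fun χ : irrChars G => (χ : G → ℂ)) := by
    rw [linearIndependent_iff']
    intro s c hc i hi
    have h1 : ip (fun g => ∑ χ ∈ s, c χ * (χ : G → ℂ) g) (i : G → ℂ) = 0 := by
      have h2 : (fun g => ∑ χ ∈ s, c χ * (χ : G → ℂ) g) = 0 := by
        rw [← hc]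
        ext g
        simp [Finset.sum_apply]
      rw [h2]
      simp [ip]
    rw [ip_sum, Finset.sum_eq_single i] at h1
    · rw [(ip_irr i.2 i.2).1 rfl, mul_one] at h1
      exact h1
    · intro j _ hj
      rw [(ip_irr j.2 i.2).2 (fun h => hj (Subtype.ext h)), mul_zero]
    · intro h
      exact absurd hi h
  have := hli.finite_of_isNoetherian
  exact Set.toFinite _

/-- Every additive function is given by a class function. -/
theorem exists_theta (A : AddFn G) : ∃ θ : G → ℂ, (∀ g x, θ (g * x * g⁻¹) = θ x) ∧
    ∀ (V : Type) [AddCommGroup V] [Module ℂ V] [FiniteDimensional ℂ V]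
      (ρ : Representation ℂ G V), (A.ord V ρ : ℂ) = ip θ ρ.character := by
  classical
  have hn : ∀ χ : G → ℂ, χ ∈ irrChars G → ∃ n : ℤ, ∀ (V : Type) [AddCommGroup V] [Module ℂ V]
      [FiniteDimensional ℂ V] (ρ : Representation ℂ G V) [ρ.IsIrreducible], ρ.character = χ →
      A.ord V ρ = n := by
    rintro χ ⟨V, _, _, _, ρ, hρ, rfl⟩
    refine ⟨A.ord V ρ, fun V₁ _ _ _ ρ₁ _ h => ?_⟩
    obtain ⟨e, he⟩ := exists_equiv_of_char ρ₁ ρ h
    exact A.congr V₁ V ρ₁ ρ e he
  choose! n hn using hn
  let S : Finset (G → ℂ) := (irrChars_finite (G := G)).toFinset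
  let θ : G → ℂ := fun g => ∑ χ ∈ S, (n χ : ℂ) * χ g
  have hS : ∀ χ, χ ∈ S ↔ χ ∈ irrChars G := fun χ => by simp [S]
  refine ⟨θ, ?_, ?_⟩
  · intro g x
    refine Finset.sum_congr rfl fun χ hχ => ?_
    rw [hS] at hχ
    obtain ⟨V, _, _, _, ρ, hρ, rfl⟩ := hχ
    rw [Representation.char_conj]
  · -- induction on the dimension
    have key : ∀ (d : ℕ) (V : Type) [AddCommGroup V] [Module ℂ V] [FiniteDimensional ℂ V]
        (ρ : Representation ℂ G V), finrank ℂ V = d → (A.ord V ρ : ℂ) = ip θ ρ.character := by
      intro d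
      induction d using Nat.strong_induction_on with
      | _ d ih =>
      intro V _ _ _ ρ hd
      by_cases h0 : Subsingleton V
      · rw [A.zero V ρ]
        have hchar : ρ.character = 0 := by
          ext g
          have : ρ g = 0 := by
            ext v
            exact Subsingleton.elim _ _
          simp [Representation.character, this]
        rw [hchar]
        simp [ip]
      by_cases hirr : ρ.IsIrreducible
      · have hmem : ρ.character ∈ irrChars G :=
          ⟨V, inferInstance, inferInstance, inferInstance, ρ, hirr, rfl⟩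
        have h1 : ip θ ρ.character = ∑ χ ∈ S, (n χ : ℂ) * ip χ ρ.character :=
          ip_sum S (fun χ => (n χ : ℂ)) (fun χ => χ) ρ.character
        rw [h1, Finset.sum_eq_single ρ.character]
        · rw [(ip_irr hmem hmem).1 rfl, mul_one, hn _ hmem V ρ rfl]
        · intro χ hχ hne
          rw [(ip_irr ((hS χ).1 hχ) hmem).2 hne, mul_zero]
        · intro h
          exact absurd ((hS _).2 hmem) h
      · -- reducible
        obtain ⟨W, hWb, hWt⟩ : ∃ W : Subrepresentation ρ, W ≠ ⊥ ∧ W ≠ ⊤ := by
          by_contra hcon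
          push Not at hcon
          apply hirr
          have hnt : Nontrivial (Subrepresentation ρ) := by
            refine ⟨⟨⊥, ⊤, fun h => h0 ?_⟩⟩
            have h2 : (⊥ : Submodule ℂ V) = ⊤ := congrArg Subrepresentation.toSubmodule h
            exact (Submodule.subsingleton_iff ℂ).1 (subsingleton_of_bot_eq_top h2)
          exact { eq_bot_or_eq_top := fun W => by
                    by_cases hW : W = ⊥
                    · exact Or.inl hW
                    · exact Or.inr (hcon W hW) }
        obtain ⟨W', hW'⟩ := exists_isCompl W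
        have hcompl : IsCompl W.toSubmodule W'.toSubmodule := by
          constructor
          · rw [disjoint_iff]
            have := congrArg Subrepresentation.toSubmodule (disjoint_iff.1 hW'.disjoint)
            exact this
          · rw [codisjoint_iff]
            have := congrArg Subrepresentation.toSubmodule (codisjoint_iff.1 hW'.codisjoint)
            exact this
        let e := (Submodule.prodEquivOfIsCompl _ _ hcompl)
        let ρ₁ := W.toRepresentation
        let ρ₂ := W'.toRepresentation
        have hesymm : ∀ g (p : W.toSubmodule × W'.toSubmodule),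
            e (ρ₁ g p.1, ρ₂ g p.2) = ρ g (e p) := by
          intro g p
          simp only [e, Submodule.coe_prodEquivOfIsCompl', map_add]
          rfl
        have he : ∀ g v, e.symm (ρ g v) = (ρ₁ g (e.symm v).1, ρ₂ g (e.symm v).2) := by
          intro g v
          rw [LinearEquiv.symm_apply_eq, hesymm, LinearEquiv.apply_symm_apply]
        have hlt1 : finrank ℂ W.toSubmodule < d := by
          rw [← hd]
          apply Submodule.finrank_lt
          intro h
          exact hWt (Subrepresentation.toSubmodule_injective h)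
        have hW'b : W' ≠ ⊤ := by
          rintro rfl
          exact hWb (by simpa using hW'.disjoint)
        have hlt2 : finrank ℂ W'.toSubmodule < d := by
          rw [← hd]
          apply Submodule.finrank_lt
          intro h
          exact hW'b (Subrepresentation.toSubmodule_injective h)
        rw [A.prod V W.toSubmodule W'.toSubmodule ρ ρ₁ ρ₂ e.symm he]
        push_cast
        rw [ih _ hlt1 _ ρ₁ rfl, ih _ hlt2 _ ρ₂ rfl, ← ip_add_right]
        congr 1
        ext g
        unfold Representation.character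
        rw [← LinearMap.trace_prodMap', ← LinearMap.trace_conj' (ρ g) e.symm]
        congr 1
        refine LinearMap.ext fun p => ?_
        simp only [LinearEquiv.conj_apply, LinearMap.comp_apply, LinearEquiv.coe_coe,
          LinearEquiv.symm_symm, he, LinearEquiv.symm_apply_apply, LinearMap.prodMap_apply]
    intro V _ _ _ ρ
    exact key _ V ρ rfl

end Pool.Agent.H7.Artin
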